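import Mathlib

namespace Pool.Agent.Results.MP_e4b752_al.Smaller

/-- The minimum degree of the variant of the full transformation semigroup with sandwich `a`. -/
noncomputable def mu {n : ℕ} (a : Fin n → Fin n) : ℕ :=
  sInf {m | 1 ≤ m ∧ ∃ φ : (Fin n → Fin n) → (Fin m → Fin m), Function.Injective φ ∧
    ∀ x y, φ (x ∘ a ∘ y) = φ x ∘ φ y}

abbrev Q := Fin 7
abbrev X := Bool × Q × Q × Q
abbrev O := (X ⊕ Bool × Q × Q) ⊕ (Q × Q × Q ⊕ (Bool × Q) × Bool × Q)

def p (b : Bool) : X := (b, 0, 0, 0)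
def p1 (x : X) : O := .inl (.inr (x.1, x.2.1, x.2.2.1))
def p2 (x y : X) : O := .inr (.inr ((x.1, x.2.2.2), y.1, y.2.2.2))

def act (y : X → X) : O → O
  | .inl (.inl i) => p1 (y i)
  | .inl (.inr t) => p1 (y (p t.1))
  | .inr (.inl u) => p2 (y (false, u)) (y (true, u))
  | .inr (.inr t) => p2 (y (p t.1.1)) (y (p t.2.1))

lemma act_mul (x y : X → X) : act (x ∘ (fun i => p i.1) ∘ y) = act x ∘ act y := by
  funext o
  rcases o with (i | t) | (u | t) <;> rfl

lemma act_inj : Function.Injective act := by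
  intro x y h
  funext ⟨b, u⟩
  have h1 := congrFun h (.inl (.inl (b, u)))
  have h2 := congrFun h (.inr (.inl u))
  simp only [act, p1, p2, Sum.inl.injEq, Sum.inr.injEq, Prod.mk.injEq] at h1 h2
  refine Prod.ext h1.1 (Prod.ext h1.2.1 (Prod.ext h1.2.2 ?_))
  cases b
  · exact h2.1.2
  · exact h2.2.2

theorem result : ∃ (n : ℕ) (a : Fin n → Fin n), (Set.range a).ncard = 2 ∧
    mu a < 2 * n - (Set.range a).ncard := by
  let e : X ≃ Fin 686 := Fintype.equivFinOfCardEq (by simp)
  let f : O ≃ Fin 1323 := Fintype.equivFinOfCardEq (by simp)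
  have h : (Set.range (e ∘ (fun i => p i.1) ∘ e.symm)).ncard = 2 := by
    refine Set.ncard_eq_two.2 ⟨e (p false), e (p true), by simp [p], ?_⟩
    ext j
    constructor
    · rintro ⟨i, rfl⟩
      cases hb : (e.symm i).1 <;> simp [hb]
    · rintro (rfl | rfl)
      · exact ⟨e (p false), by simp [p]⟩
      · exact ⟨e (p true), by simp [p]⟩
  refine ⟨686, _, h, ?_⟩
  rw [h]
  refine lt_of_le_of_lt (Nat.sInf_le (m := 1323) ⟨by norm_num,
    fun x => f ∘ act (e.symm ∘ x ∘ e) ∘ f.symm, fun x y hxy => ?_, fun x y => ?_⟩) (by norm_num)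
  · have : act (e.symm ∘ x ∘ e) = act (e.symm ∘ y ∘ e) := by
      funext o
      simpa using congrFun hxy (f o)
    funext i
    simpa using congrFun (act_inj this) (e.symm i)
  · have := act_mul (e.symm ∘ x ∘ e) (e.symm ∘ y ∘ e)
    funext o
    simp only [Function.comp_apply, Equiv.symm_apply_apply]
    rw [← Function.comp_apply (f := act _) (g := act _), ← this]
    congr 2

end Pool.Agent.Results.MP_e4b752_al.Smaller
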